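import Pool.Agent.H484.AL.Stm

/-! AL-FOUR (helper665). -/

set_option autoImplicit false

namespace Pool.Agent.H665.AL

open Pool.Agent.H484.AL Finset

theorem ee_add (N : ℕ) (s t : ℤ) : ee N (s + t) = ee N s * ee N t := by
  unfold ee
  rw [← Complex.exp_add]
  congr 1
  push_cast
  ring

theorem ee_zero (N : ℕ) : ee N 0 = 1 := by
  unfold ee
  simp

theorem ee_sum {ι : Type*} (N : ℕ) (s : Finset ι) (f : ι → ℤ) :
    ee N (∑ i ∈ s, f i) = ∏ i ∈ s, ee N (f i) := by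
  classical
  induction s using Finset.induction_on with
  | empty => rw [sum_empty, prod_empty, ee_zero]
  | insert a s ha ih => rw [sum_insert ha, prod_insert ha, ee_add, ih]

theorem ee_dvd {N : ℕ} (hN : 1 ≤ N) {t : ℤ} (h : (N : ℤ) ∣ t) : ee N t = 1 := by
  obtain ⟨k, rfl⟩ := h
  unfold ee
  rw [Complex.exp_eq_one_iff]
  refine ⟨k, ?_⟩
  have hN' : (N : ℂ) ≠ 0 := by
    have : N ≠ 0 := by omega
    exact_mod_cast this
  push_cast
  field_simp

theorem ee_ne {N : ℕ} (hN : 1 ≤ N) {t : ℤ} (h : ¬ (N : ℤ) ∣ t) : ee N t ≠ 1 := by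
  intro h1
  unfold ee at h1
  rw [Complex.exp_eq_one_iff] at h1
  obtain ⟨k, hk⟩ := h1
  have hN' : (N : ℂ) ≠ 0 := by
    have : N ≠ 0 := by omega
    exact_mod_cast this
  have hpi : (2 * (Real.pi : ℂ) * Complex.I) ≠ 0 := Complex.two_pi_I_ne_zero
  apply h
  have h2 : (t : ℂ) / (N : ℂ) = k := by
    apply mul_left_cancel₀ hpi
    rw [hk]
    ring
  rw [div_eq_iff hN'] at h2
  refine ⟨k, ?_⟩
  have h3 : (t : ℂ) = ((N : ℤ) * k : ℤ) := by
    rw [h2]; push_cast; ring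
  exact_mod_cast h3

theorem ee_congr {N : ℕ} (hN : 1 ≤ N) {s t : ℤ} (h : (N : ℤ) ∣ s - t) : ee N s = ee N t := by
  have : s = (s - t) + t := by ring
  rw [this, ee_add, ee_dvd hN h, one_mul]

theorem ee_pow (N : ℕ) (ν : ℤ) (x : ℕ) : ee N (ν * (x : ℤ)) = ee N ν ^ x := by
  induction x with
  | zero => rw [Nat.cast_zero, mul_zero, ee_zero, pow_zero]
  | succ x ih =>
    rw [pow_succ, ← ih, ← ee_add]
    congr 1
    push_cast
    ring

theorem geo {N : ℕ} (hN : 1 ≤ N) {ν : ℤ} (h : ¬ (N : ℤ) ∣ ν) :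
    ∑ x : Fin N, ee N (ν * ((x : ℕ) : ℤ)) = 0 := by
  have h1 : ∑ x : Fin N, ee N (ν * ((x : ℕ) : ℤ)) = ∑ x ∈ range N, ee N ν ^ x := by
    rw [← Fin.sum_univ_eq_sum_range]
    exact sum_congr rfl fun x _ => ee_pow N ν x
  rw [h1]
  have h2 := mul_neg_geom_sum (ee N ν) N
  have h3 : ee N ν ^ N = 1 := by
    rw [← ee_pow, mul_comm]
    exact ee_dvd hN (Dvd.intro _ rfl)
  rw [h3, sub_self] at h2
  rcases mul_eq_zero.1 h2 with h4 | h4
  · exact absurd (sub_eq_zero.1 h4).symm (ee_ne hN h)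
  · exact h4

/-- sums over boxes of products -/
theorem box (d N : ℕ) (f : Fin d → Fin N → ℂ) :
    ∑ x : Fin d → Fin N, ∏ i, f i (x i) = ∏ i, ∑ y : Fin N, f i y := by
  rw [Finset.prod_univ_sum (fun _ => (univ : Finset (Fin N))) f, Fintype.piFinset_univ]

/-- the reflection -/
theorem inv_aux {N : ℕ} (A x : ℕ) (hx : x < N) :
    (A + (N - (A + (N - x)) % N)) % N = x := by
  have hN : 0 < N := by omega
  have h1 := Nat.mod_lt (A + (N - x)) hN
  have h2 := Nat.div_add_mod (A + (N - x)) N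
  set r := (A + (N - x)) % N with hr
  set k := (A + (N - x)) / N with hk
  -- A + N - x = N k + r
  have h3 : A + (N - r) = x + N * k := by
    omega
  rw [h3, Nat.add_mul_mod_self_left, Nat.mod_eq_of_lt hx]

/-- the one dimensional sum -/
theorem oned {N : ℕ} (hN : 1 ≤ N) (A m : ℕ) (hm : m ≤ N) (ν : ℤ) :
    ∑ x : Fin N, (if (A + (N - (x : ℕ))) % N < m then (1 : ℂ) else 0) *
      ee N (ν * ((x : ℕ) : ℤ)) = ee N (ν * A) * SS N m (-ν) := by
  have hN' : 0 < N := hN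
  let φ : Fin N → Fin N := fun x => ⟨(A + (N - (x : ℕ))) % N, Nat.mod_lt _ hN'⟩
  have hφ : Function.Involutive φ := by
    intro x
    apply Fin.ext
    exact inv_aux A x x.2
  let e : Equiv.Perm (Fin N) := Function.Involutive.toPerm φ hφ
  have h1 := Equiv.sum_comp e (fun x : Fin N =>
    (if (A + (N - (x : ℕ))) % N < m then (1 : ℂ) else 0) * ee N (ν * ((x : ℕ) : ℤ)))
  rw [← h1]
  have h2 : ∀ y : Fin N, ((if (A + (N - ((e y : Fin N) : ℕ))) % N < m then (1 : ℂ)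
      else 0) * ee N (ν * (((e y : Fin N) : ℕ) : ℤ))) =
      ee N (ν * A) * (if (y : ℕ) < m then ee N (-ν * ((y : ℕ) : ℤ)) else 0) := by
    intro y
    have e1 : ((e y : Fin N) : ℕ) = (A + (N - (y : ℕ))) % N := rfl
    rw [e1, inv_aux A y y.2]
    have e2 : ee N (ν * (((A + (N - (y : ℕ))) % N : ℕ) : ℤ)) =
        ee N (ν * A) * ee N (-ν * ((y : ℕ) : ℤ)) := by
      rw [← ee_add]
      apply ee_congr hN
      have h3 := Nat.div_add_mod (A + (N - (y : ℕ))) N
      have h4 : ((N : ℤ)) * (((A + (N - (y : ℕ))) / N : ℕ) : ℤ) +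
          (((A + (N - (y : ℕ))) % N : ℕ) : ℤ) = A + (N - ((y : ℕ) : ℤ)) := by
        have h5 : (((N - (y : ℕ) : ℕ)) : ℤ) = (N : ℤ) - ((y : ℕ) : ℤ) :=
          Nat.cast_sub y.2.le
        rw [← h5]
        exact_mod_cast h3
      refine ⟨ν * (1 - (((A + (N - (y : ℕ))) / N : ℕ) : ℤ)), ?_⟩
      have h6 : (((A + (N - (y : ℕ))) % N : ℕ) : ℤ) = A + (N - ((y : ℕ) : ℤ)) -
          (N : ℤ) * (((A + (N - (y : ℕ))) / N : ℕ) : ℤ) := by
        rw [← h4]; ring
      rw [h6]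
      ring
    rw [e2]
    split_ifs
    · rw [one_mul]
    · rw [zero_mul, mul_zero]
  rw [sum_congr rfl fun y _ => h2 y, ← mul_sum]
  congr 1
  unfold SS
  rw [Fin.sum_univ_eq_sum_range (fun y => if y < m then ee N (-ν * (y : ℤ)) else 0) N,
    ← sum_filter]
  refine sum_congr ?_ fun _ _ => rfl
  ext y
  simp only [mem_filter, mem_range]
  omega

/-- the general formula -/
theorem gen {d N : ℕ} (hN : 1 ≤ N) (a m : Fin d → ℕ) (hm : ∀ i, m i ≤ N) (ν : Fin d → ℤ) :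
    ∑ x : Fin d → Fin N, (cnt d N a (fun i => (x i : ℕ)) m : ℂ) *
      ee N (∑ i, ν i * ((x i : ℕ) : ℤ)) =
      (∑ n ∈ range N, ee N (n * ∑ i, (a i : ℤ) * ν i)) * ∏ i, SS N (m i) (-(ν i)) := by
  have h1 : ∀ x : Fin d → Fin N, (cnt d N a (fun i => (x i : ℕ)) m : ℂ) *
      ee N (∑ i, ν i * ((x i : ℕ) : ℤ)) = ∑ n ∈ range N, ∏ i,
        ((if (n * a i + (N - (x i : ℕ))) % N < m i then (1 : ℂ) else 0) *
          ee N (ν i * ((x i : ℕ) : ℤ))) := by
    intro x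
    unfold cnt
    rw [card_filter, Nat.cast_sum, sum_mul]
    refine sum_congr rfl fun n _ => ?_
    rw [prod_mul_distrib, ee_sum]
    congr 1
    by_cases h : ∀ i, (n * a i + (N - (x i : ℕ))) % N < m i
    · rw [if_pos h, prod_congr rfl fun i _ => if_pos (h i), prod_const_one, Nat.cast_one]
    · rw [if_neg h]
      push Not at h
      obtain ⟨i, hi⟩ := h
      rw [prod_eq_zero (mem_univ i) (if_neg (by omega)), Nat.cast_zero]
  rw [sum_congr rfl fun x _ => h1 x, sum_comm, sum_mul]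
  refine sum_congr rfl fun n _ => ?_
  rw [box d N fun i y => (if (n * a i + (N - (y : ℕ))) % N < m i then (1 : ℂ) else 0) *
          ee N (ν i * ((y : ℕ) : ℤ))]
  rw [prod_congr rfl fun i _ => oned hN (n * a i) (m i) (hm i) (ν i), prod_mul_distrib]
  congr 1
  rw [← ee_sum, mul_sum]
  congr 1
  refine sum_congr rfl fun i _ => ?_
  push_cast
  ring

theorem four1 {d N : ℕ} (hN : 1 ≤ N) (ν : Fin d → ℤ) (h : ∃ i, ¬ (N : ℤ) ∣ ν i) :
    ∑ x : Fin d → Fin N, ee N (∑ i, ν i * ((x i : ℕ) : ℤ)) = 0 := by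
  have h1 : ∀ x : Fin d → Fin N, ee N (∑ i, ν i * ((x i : ℕ) : ℤ)) =
      ∏ i, ee N (ν i * ((x i : ℕ) : ℤ)) := fun x => ee_sum _ _ _
  rw [sum_congr rfl fun x _ => h1 x, box d N fun i y => ee N (ν i * ((y : ℕ) : ℤ))]
  obtain ⟨i, hi⟩ := h
  exact prod_eq_zero (mem_univ i) (geo hN hi)

end Pool.Agent.H665.AL

namespace Pool.Agent.H484.AL

open Pool.Agent.H665.AL Finset

theorem t_FOUR : S_FOUR := by
  intro d N a m ν hN hm
  have hN' : (N : ℝ) ≠ 0 := by
    have : N ≠ 0 := by omega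
    exact_mod_cast this
  refine ⟨four1 hN ν, ?_, ?_⟩
  · intro h hd
    have e1 : ∀ x : Fin d → Fin N, ((GG d N a (fun i => (x i : ℕ)) m : ℝ) : ℂ) *
        ee N (∑ i, ν i * ((x i : ℕ) : ℤ)) =
        (cnt d N a (fun i => (x i : ℕ)) m : ℂ) * ee N (∑ i, ν i * ((x i : ℕ) : ℤ)) -
        ((((N : ℝ) * ∏ i, ((m i : ℝ) / (N : ℝ)) : ℝ)) : ℂ) *
          ee N (∑ i, ν i * ((x i : ℕ) : ℤ)) := by
      intro x
      unfold GG
      rw [Complex.ofReal_sub, sub_mul]
      congr 2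
    rw [sum_congr rfl fun x _ => e1 x, sum_sub_distrib, ← mul_sum, four1 hN ν h, mul_zero,
      sub_zero, gen hN a m hm ν]
    congr 1
    rw [sum_congr rfl fun (n : ℕ) _ => ee_dvd hN (Dvd.dvd.mul_left hd (n : ℤ)), sum_const,
      card_range, nsmul_eq_mul, mul_one]
  · have h1 := gen hN a m hm (fun _ => 0)
    have e1 : ∀ x : Fin d → Fin N, ee N (∑ i, (0 : ℤ) * ((x i : ℕ) : ℤ)) = 1 := by
      intro x
      rw [sum_congr rfl fun i _ => zero_mul _, sum_const_zero, ee_zero]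
    have e2 : ∑ n ∈ range N, ee N (n * ∑ i, (a i : ℤ) * 0) = (N : ℂ) := by
      have : ∀ n ∈ range N, ee N ((n : ℤ) * ∑ i, (a i : ℤ) * 0) = 1 := by
        intro n _
        rw [sum_congr rfl fun i _ => mul_zero _, sum_const_zero, mul_zero, ee_zero]
      rw [sum_congr rfl this, sum_const, card_range, nsmul_eq_mul, mul_one]
    have e3 : ∀ i, SS N (m i) (-0) = (m i : ℂ) := by
      intro i
      unfold SS
      have : ∀ y ∈ range (m i), ee N (-0 * (y : ℤ)) = 1 := by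
        intro y _
        rw [neg_zero, zero_mul, ee_zero]
      rw [sum_congr rfl this, sum_const, card_range, nsmul_eq_mul, mul_one]
    rw [sum_congr rfl fun x _ => by rw [e1 x, mul_one], e2, prod_congr rfl fun i _ => e3 i] at h1
    have h2 : ∑ x : Fin d → Fin N, (cnt d N a (fun i => (x i : ℕ)) m : ℝ) =
        (N : ℝ) * ∏ i, (m i : ℝ) := by
      exact_mod_cast h1
    unfold GG
    rw [sum_sub_distrib, h2, sum_const, card_univ, Fintype.card_fun, Fintype.card_fin,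
      Fintype.card_fin, nsmul_eq_mul, prod_div_distrib, prod_const, card_univ, Fintype.card_fin]
    push_cast
    field_simp
    ring

end Pool.Agent.H484.AL
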